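import Pool.Agent.Helper44.GH.Stmts

/-!
# Face inequality for polyhedral cycles in `ℓ^p_n`, `5/3 ≤ p < 2` (MP_d210aa_gt): module GL1

The law of `|v_i · x|` for the Gaussian measure.
-/

open Finset MeasureTheory Filter Topology Matrix
open scoped ENNReal ContDiff

namespace Pool.Agent.Helper44.GH

open Pool.Agent.Helper44.GF Pool.Agent.Helper44.GN

/-- The sum after the update of one coefficient. -/
theorem gl1_sum_update {n : ℕ} (y a : Fin n → ℝ) (i : Fin n) (k : ℝ) :
    ∑ j, Function.update y i (y i + k) j * a j = ∑ j, y j * a j + k * a i := by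
  have h1 : ∀ j, Function.update y i (y i + k) j * a j
      = y j * a j + if j = i then k * a i else 0 := by
    intro j
    by_cases h : j = i
    · subst h
      rw [Function.update_self, if_pos rfl]
      ring
    · rw [Function.update_of_ne h, if_neg h, add_zero]
  simp_rw [h1]
  rw [Finset.sum_add_distrib, Finset.sum_ite_eq' Finset.univ i, if_pos (Finset.mem_univ i)]

/-- The Gaussian integral on the half line with the constant. -/
theorem gl1_half (h k : ℝ) (hh0 : 0 < h) (hk : 0 ≤ k) :
    2 / √Real.pi * h ^ (-(1 / 2) : ℝ) * (√(Real.pi / (k + 1 / h)) / 2)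
      = (1 + k * h) ^ (-(1 / 2) : ℝ) := by
  have hpi : 0 < Real.pi := Real.pi_pos
  have hsp : 0 < √Real.pi := Real.sqrt_pos.mpr hpi
  have h1 : 0 < k + 1 / h := by positivity
  have h2 : 0 < 1 + k * h := by positivity
  rw [Real.rpow_neg hh0.le, Real.rpow_neg h2.le, ← Real.sqrt_eq_rpow, ← Real.sqrt_eq_rpow,
    Real.sqrt_div hpi.le]
  have h3 : √h * √(k + 1 / h) = √(1 + k * h) := by
    rw [← Real.sqrt_mul hh0.le]
    congr 1
    field_simp
    ring
  have hsh : 0 < √h := Real.sqrt_pos.mpr hh0
  have hs1 : 0 < √(k + 1 / h) := Real.sqrt_pos.mpr h1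
  rw [← h3]
  field_simp

theorem st_GL1 (hUPD : ST_UPD) (hGI3 : ST_GI3) (hLAPU : ST_LAPU) : ST_GL1 := by
  intro n m V hV y hy i hi φ hφ
  obtain ⟨-, hq, hh0, hh1, -⟩ := hUPD n m V V hV y hy i 0 le_rfl
  have hh2 : 0 < hh V y i := lt_of_le_of_ne hh0 (fun h => hi (hh1 h.symm))
  obtain ⟨hG0, hint, hval, -⟩ := hGI3 n m V hV y hy
  set h := hh V y i with hhdef
  set c : ℝ := G0 m * (qf V y) ^ (-(1 / 2) : ℝ) with hc
  have hc0 : 0 < c := mul_pos hG0 (Real.rpow_pos_of_pos hq _)
  set E : (Fin m → ℝ) → ℝ := fun x => Real.exp (-∑ j, y j * (V.mulVec x j) ^ 2) with hE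
  set g : ℝ → ℝ := fun t => 2 / √Real.pi * h ^ (-(1 / 2) : ℝ) * Real.exp (-(t ^ 2 / h)) with hg
  have hEc : Continuous E := by
    rw [hE]
    refine Real.continuous_exp.comp (continuous_finsetSum _ fun j _ => ?_).neg
    refine continuous_const.mul (Continuous.pow ?_ 2)
    exact (continuous_apply j).comp (Continuous.matrix_mulVec continuous_const continuous_id)
  have hgc : Continuous g := by
    rw [hg]
    exact continuous_const.mul (Real.continuous_exp.comp
      ((continuous_pow 2).div_const h).neg)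
  have hE0 : ∀ x, 0 ≤ E x := fun x => (Real.exp_pos _).le
  have hg0 : ∀ t, 0 ≤ g t := fun t => by
    rw [hg]
    positivity
  have hfm : Measurable (fun x : Fin m → ℝ => (V.mulVec x i) ^ 2) := by
    have : Continuous (fun x : Fin m → ℝ => (V.mulVec x i) ^ 2) :=
      ((continuous_apply i).comp (Continuous.matrix_mulVec continuous_const continuous_id)).pow 2
    exact this.measurable
  have hsq : Measurable (fun t : ℝ => t ^ 2) := (continuous_pow 2).measurable
  have hEm : Measurable (fun x => ENNReal.ofReal (E x)) := hEc.measurable.ennreal_ofReal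
  have hgm : Measurable (fun t => ENNReal.ofReal (c * g t)) :=
    (continuous_const.mul hgc).measurable.ennreal_ofReal
  -- the exponential in the form of a Gaussian
  have hexpform : ∀ (k t : ℝ), Real.exp (-(k * t ^ 2)) * g t
      = 2 / √Real.pi * h ^ (-(1 / 2) : ℝ) * Real.exp (-(k + 1 / h) * t ^ 2) := by
    intro k t
    rw [hg]
    have h1 : Real.exp (-(k + 1 / h) * t ^ 2)
        = Real.exp (-(k * t ^ 2)) * Real.exp (-(t ^ 2 / h)) := by
      rw [← Real.exp_add]
      congr 1
      field_simp
      ring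
    rw [h1]
    ring
  have hgint : ∀ k : ℝ, 0 ≤ k → Integrable (fun t => Real.exp (-(k * t ^ 2)) * g t) := by
    intro k hk
    have h1 : 0 < k + 1 / h := by positivity
    have h2 := (integrable_exp_neg_mul_sq h1).const_mul (2 / √Real.pi * h ^ (-(1 / 2) : ℝ))
    refine h2.congr (Filter.Eventually.of_forall fun t => ?_)
    exact (hexpform k t).symm
  have hgval : ∀ k : ℝ, 0 ≤ k → ∫ t in Set.Ioi (0 : ℝ), Real.exp (-(k * t ^ 2)) * g t
      = (1 + k * h) ^ (-(1 / 2) : ℝ) := by
    intro k hk
    simp_rw [hexpform k]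
    rw [integral_const_mul, integral_gaussian_Ioi]
    exact gl1_half h k hh2 hk
  -- the two measures
  set μ₀ : Measure (Fin m → ℝ) := volume.withDensity (fun x => ENNReal.ofReal (E x)) with hμ₀
  set ν₀ : Measure ℝ := (volume.restrict (Set.Ioi (0 : ℝ))).withDensity
    (fun t => ENNReal.ofReal (c * g t)) with hν₀
  have hμ₀fin : IsFiniteMeasure μ₀ := by
    refine isFiniteMeasure_withDensity_ofReal hint.2
  have hgi0 : Integrable g := by
    refine (hgint 0 le_rfl).congr (Filter.Eventually.of_forall fun t => ?_)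
    simp
  have hν₀fin : IsFiniteMeasure ν₀ := by
    refine isFiniteMeasure_withDensity_ofReal ?_
    exact ((hgi0.const_mul c).integrableOn (s := Set.Ioi (0 : ℝ))).2
  set μ : Measure ℝ := μ₀.map (fun x : Fin m → ℝ => (V.mulVec x i) ^ 2) with hμ
  set ν : Measure ℝ := ν₀.map (fun t : ℝ => t ^ 2) with hν
  have hfinμ : IsFiniteMeasure μ := by
    rw [hμ]
    infer_instance
  have hfinν : IsFiniteMeasure ν := by
    rw [hν]
    infer_instance
  have hμν : μ = ν := by
    refine hLAPU μ ν ?_ ?_ ?_
    · rw [hμ, Measure.map_apply hfm measurableSet_Iio]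
      have : (fun x : Fin m → ℝ => (V.mulVec x i) ^ 2) ⁻¹' Set.Iio 0 = ∅ := by
        ext x
        simp only [Set.mem_preimage, Set.mem_Iio, Set.mem_empty_iff_false, iff_false, not_lt]
        positivity
      rw [this, measure_empty]
    · rw [hν, Measure.map_apply hsq measurableSet_Iio]
      have : (fun t : ℝ => t ^ 2) ⁻¹' Set.Iio 0 = ∅ := by
        ext x
        simp only [Set.mem_preimage, Set.mem_Iio, Set.mem_empty_iff_false, iff_false, not_lt]
        positivity
      rw [this, measure_empty]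
    · intro k
      have hm1 : AEStronglyMeasurable (fun x : ℝ => Real.exp (-(k * x))) μ :=
        (by fun_prop : Continuous (fun x : ℝ => Real.exp (-(k * x)))).aestronglyMeasurable
      have hm2 : AEStronglyMeasurable (fun x : ℝ => Real.exp (-(k * x))) ν :=
        (by fun_prop : Continuous (fun x : ℝ => Real.exp (-(k * x)))).aestronglyMeasurable
      rw [hμ] at hm1
      rw [hν] at hm2
      rw [hμ, hν, integral_map hfm.aemeasurable hm1, integral_map hsq.aemeasurable hm2]
      rw [hμ₀, hν₀, integral_withDensity_eq_integral_toReal_smul hEm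
        (Filter.Eventually.of_forall fun _ => ENNReal.ofReal_lt_top),
        integral_withDensity_eq_integral_toReal_smul hgm
        (Filter.Eventually.of_forall fun _ => ENNReal.ofReal_lt_top)]
      have hk : (0 : ℝ) ≤ (k : ℝ) := Nat.cast_nonneg k
      obtain ⟨hy', -, -, -, hqf', -⟩ := hUPD n m V V hV y hy i k hk
      obtain ⟨-, -, hval', -⟩ := hGI3 n m V hV _ hy'
      have hL : ∫ x : Fin m → ℝ, (ENNReal.ofReal (E x)).toReal
          • Real.exp (-(k * (V.mulVec x i) ^ 2)) = c * (1 + k * h) ^ (-(1 / 2) : ℝ) := by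
        have h1 : ∀ x : Fin m → ℝ, (ENNReal.ofReal (E x)).toReal
            • Real.exp (-(k * (V.mulVec x i) ^ 2))
            = Real.exp (-∑ j, Function.update y i (y i + k) j * (V.mulVec x j) ^ 2) := by
          intro x
          rw [ENNReal.toReal_ofReal (hE0 x), smul_eq_mul, hE,
            gl1_sum_update y (fun j => (V.mulVec x j) ^ 2) i k, ← Real.exp_add]
          congr 1
          ring
        simp_rw [h1]
        rw [hval', hqf', Real.mul_rpow hq.le (by positivity), hc, hhdef]
        ring
      have hR : ∫ t in Set.Ioi (0 : ℝ), (ENNReal.ofReal (c * g t)).toReal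
          • Real.exp (-(k * t ^ 2)) = c * (1 + k * h) ^ (-(1 / 2) : ℝ) := by
        have h1 : ∀ t : ℝ, (ENNReal.ofReal (c * g t)).toReal
            • Real.exp (-(k * t ^ 2)) = c * (Real.exp (-(k * t ^ 2)) * g t) := by
          intro t
          rw [ENNReal.toReal_ofReal (mul_nonneg hc0.le (hg0 t)), smul_eq_mul]
          ring
        simp_rw [h1]
        rw [integral_const_mul, hgval k hk]
      rw [hL, hR]
  -- conclusion
  have hφs : Measurable (fun s : ℝ => φ √s) := hφ.comp Real.continuous_sqrt.measurable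
  have e1 : ∫⁻ s, φ √s ∂μ = ∫⁻ x : Fin m → ℝ, φ |V.mulVec x i| * ENNReal.ofReal (E x) := by
    have hm : Measurable (fun x : Fin m → ℝ => φ √((V.mulVec x i) ^ 2)) := hφs.comp hfm
    rw [hμ, lintegral_map hφs hfm, hμ₀, lintegral_withDensity_eq_lintegral_mul _ hEm hm]
    refine lintegral_congr fun x => ?_
    simp only [Pi.mul_apply]
    rw [Real.sqrt_sq_eq_abs, mul_comm]
  have e2 : ∫⁻ s, φ √s ∂ν = ENNReal.ofReal c
      * ∫⁻ t in Set.Ioi (0 : ℝ), φ t * ENNReal.ofReal (g t) := by
    have hm : Measurable (fun t : ℝ => φ √(t ^ 2)) := hφs.comp hsq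
    have hm2 : Measurable (fun t : ℝ => φ t * ENNReal.ofReal (g t)) :=
      hφ.mul hgc.measurable.ennreal_ofReal
    rw [hν, lintegral_map hφs hsq, hν₀, lintegral_withDensity_eq_lintegral_mul _ hgm hm,
      ← lintegral_const_mul _ hm2]
    refine setLIntegral_congr_fun measurableSet_Ioi fun t ht => ?_
    simp only [Pi.mul_apply]
    rw [Real.sqrt_sq (le_of_lt ht), ENNReal.ofReal_mul hc0.le]
    ring
  rw [← e1, hμν, e2]

end Pool.Agent.Helper44.GH
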